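import Pool.Agent.J4H67.GE.Pfm

/-!
# Project GE: part PFA (the inequality from the product formula, common divisors)
-/

set_option autoImplicit false
set_option linter.unusedSectionVars false

open MvPolynomial Height Filter NumberField

namespace Pool.Agent.J4H67.GE

open Pool.Agent.J4H27.GC Pool.Agent.J4H27.GE Pool.Agent.J4H75.GC Pool.Agent.TH954.V

theorem t_PFA (h1 : S_LCT) (h2 : S_LCA) (h3 : S_RWM) : S_PFA := by
  classical
  intro K _ _ a b m C₁ hC₁
  obtain ⟨C', hC', hloc⟩ := h1 K a b m C₁ hC₁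
  have hlogC : 0 ≤ Real.log C' := Real.log_nonneg hC'
  have hn0 : (0 : ℝ) ≤ (Module.finrank ℚ K : ℝ) := Nat.cast_nonneg _
  refine ⟨(Module.finrank ℚ K : ℝ) * (Real.log C' + 1) + 1, ?_, ?_⟩
  · have : 0 ≤ (Module.finrank ℚ K : ℝ) * (Real.log C' + 1) := mul_nonneg hn0 (by linarith)
    linarith
  intro D k T d hd hD hDk F Λ hΛ hdeg hlen hGA x h E V w s SS hDat hx1 hSS hw hV hc0 hlow
  have hT := hloc D k d hd hD hDk F Λ hdeg hlen x h E hDat
  have hA := h2 K a b m C₁ hC₁ D k T d hd hD hDk F hdeg hGA x h E hDat hx1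
  have hv := hval h3 a b C₁ D k F x h E V w s hDat hw hV hc0 hlow
  set c : K := MvPowerSeries.coeff s (Vm a b D k (gR K m) (xF x h) (hR h E) (fun _ => true) F)
    with hc
  have hC0 : (0 : ℝ) < C' := by linarith
  have hΛ0 : (0 : ℝ) < Λ := by linarith
  -- the two functions on the places
  set b1 : AbsoluteValue K ℝ → ℝ := fun v => (d : ℝ) * Pool.Agent.J4H75.GC.lp (x (none, 0)) v
    with hb1
  set b2 : AbsoluteValue K ℝ → ℝ := fun v =>
    ((d : ℝ) + 2 * m * d + 2 * m) * Pool.Agent.J4H75.GC.lp (x (none, 1)) v with hb2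
  set b3 : AbsoluteValue K ℝ → ℝ := fun v => ∑ i : Fin m,
    (2 * (D i : ℝ) + 2 + (s (some i, 0) : ℝ)) * Pool.Agent.J4H75.GC.lp (x (some i, 1)) v with hb3
  set b4 : AbsoluteValue K ℝ → ℝ := fun v => ∑ t : Option (Fin m),
    (2 * (s (t, 1) : ℝ)) * Pool.Agent.J4H75.GC.lp (x (t, 1)) v with hb4
  set b5 : AbsoluteValue K ℝ → ℝ := fun v => ∑ i : Fin m,
    (D i : ℝ) * Pool.Agent.J4H75.GC.lp (x (some i, 0) * x (none, 0) ^ (4 ^ k i)) v with hb5
  set b6 : AbsoluteValue K ℝ → ℝ := fun v => ∑ i : Fin m,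
    (-(T i : ℝ)) * lm (x (some i, 0) - 1)⁻¹ (x (some i, 1)) v with hb6
  have F1 : FS b1 := FS_mul (FS_lp _) _
  have F2 : FS b2 := FS_mul (FS_lp _) _
  have F3 : FS b3 := FS_sum _ (fun i _ => FS_mul (FS_lp _) _)
  have F4 : FS b4 := FS_sum _ (fun i _ => FS_mul (FS_lp _) _)
  have F5 : FS b5 := FS_sum _ (fun i _ => FS_mul (FS_lp _) _)
  have F6 : FS b6 := FS_sum _ (fun i _ => FS_mul (FS_lm _ _) _)
  set B : AbsoluteValue K ℝ → ℝ := fun v => b1 v + (b2 v + (b3 v + (b4 v + (b5 v + b6 v)))) with hB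
  have FB : FS B := FS_add F1 (FS_add F2 (FS_add F3 (FS_add F4 (FS_add F5 F6))))
  have tB : tot B = tot b1 + (tot b2 + (tot b3 + (tot b4 + (tot b5 + tot b6)))) := by
    rw [hB, tot_add F1 (FS_add F2 (FS_add F3 (FS_add F4 (FS_add F5 F6)))),
      tot_add F2 (FS_add F3 (FS_add F4 (FS_add F5 F6))), tot_add F3 (FS_add F4 (FS_add F5 F6)),
      tot_add F4 (FS_add F5 F6), tot_add F5 F6]
  have t1 : tot b1 = (d : ℝ) * logHeight₁ (x (none, 0)) := by
    rw [hb1, tot_mul (FS_lp _), tot_lp]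
  have t2 : tot b2 = ((d : ℝ) + 2 * m * d + 2 * m) * logHeight₁ (x (none, 1)) := by
    rw [hb2, tot_mul (FS_lp _), tot_lp]
  have t3 : tot b3 = ∑ i : Fin m, (2 * (D i : ℝ) + 2 + (s (some i, 0) : ℝ)) *
      logHeight₁ (x (some i, 1)) := by
    rw [hb3, tot_sum _ (fun i _ => FS_mul (FS_lp _) _)]
    exact Finset.sum_congr rfl fun i _ => by rw [tot_mul (FS_lp _), tot_lp]
  have t4 : tot b4 = 2 * ∑ t : Option (Fin m), (s (t, 1) : ℝ) * logHeight₁ (x (t, 1)) := by
    rw [hb4, tot_sum _ (fun i _ => FS_mul (FS_lp _) _), Finset.mul_sum]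
    exact Finset.sum_congr rfl fun i _ => by rw [tot_mul (FS_lp _), tot_lp]; ring
  have t5 : tot b5 = ∑ i : Fin m, (D i : ℝ) *
      logHeight₁ (x (some i, 0) * x (none, 0) ^ (4 ^ k i)) := by
    rw [hb5, tot_sum _ (fun i _ => FS_mul (FS_lp _) _)]
    exact Finset.sum_congr rfl fun i _ => by rw [tot_mul (FS_lp _), tot_lp]
  have t6 : tot b6 = -∑ i : Fin m, (T i : ℝ) * (logHeight₁ (x (some i, 0) - 1)⁻¹ +
      logHeight₁ (x (some i, 1)) - logHeight ![1, (x (some i, 0) - 1)⁻¹, x (some i, 1)]) := by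
    rw [hb6, tot_sum _ (fun i _ => FS_mul (FS_lm _ _) _), ← Finset.sum_neg_distrib]
    exact Finset.sum_congr rfl fun i _ => by rw [tot_mul (FS_lm _ _), tot_lm]; ring
  set g : AbsoluteValue K ℝ → ℝ := fun v =>
      Real.log (v c) + ∑ i, (D i : ℝ) * Pool.Agent.J4H75.GC.lp (V i) v with hg
  have G2 : FS (fun v : AbsoluteValue K ℝ => ∑ i : Fin m,
      (D i : ℝ) * Pool.Agent.J4H75.GC.lp (V i) v) := FS_sum _ (fun i _ => FS_mul (FS_lp _) _)
  have Fg : FS g := FS_add (FS_log hc0) G2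
  have tg : tot g = ∑ i, (D i : ℝ) * logHeight₁ (V i) := by
    rw [hg, tot_add (FS_log hc0) G2, tot_log hc0, zero_add,
      tot_sum _ (fun i _ => FS_mul (FS_lp _) _)]
    refine Finset.sum_congr rfl (fun i _ => ?_)
    rw [tot_mul (FS_lp _), tot_lp]
  -- the correction
  set ee : AbsoluteValue K ℝ → ℝ := fun v => ∑ i : Fin m,
    (T i : ℝ) * Pool.Agent.J4H75.GC.lp (x (some i, 1)) v with hee
  have hBT : ∀ v : AbsoluteValue K ℝ, Real.log (BT D d 2 (fun t => max 1 (v (x t)))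
      (fun i => max 1 (v (x (some i, 0) * x (none, 0) ^ (4 ^ k i)))) s) ≤ ee v + B v := by
    intro v
    rw [log_BT D k d 2 x s v]
    have e1 : ∑ i : Fin m, (2 * (D i : ℝ) + (2 : ℕ)) * Pool.Agent.J4H75.GC.lp (x (some i, 1)) v ≤
        b3 v := by
      rw [hb3]
      refine Finset.sum_le_sum fun i _ => ?_
      have := lp_nonneg (x (some i, 1)) v
      have h4 : (0 : ℝ) ≤ s (some i, 0) := Nat.cast_nonneg _
      push_cast
      nlinarith [mul_nonneg h4 this]
    have e2 : 0 ≤ ee v + b6 v := by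
      rw [hee, hb6, ← Finset.sum_add_distrib]
      refine Finset.sum_nonneg fun i _ => ?_
      have h4 := lm_le (x (some i, 0) - 1)⁻¹ (x (some i, 1)) v
      have h5 : (0 : ℝ) ≤ T i := Nat.cast_nonneg _
      nlinarith [mul_nonneg h5 (sub_nonneg.2 h4)]
    have e3 : ∑ t : Option (Fin m), (((2 : ℕ) : ℝ) * (s (t, 1) : ℝ)) *
        Pool.Agent.J4H75.GC.lp (x (t, 1)) v = b4 v := by
      rw [hb4]
      push_cast
      rfl
    have e4 : B v = b1 v + (b2 v + (b3 v + (b4 v + (b5 v + b6 v)))) := rfl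
    rw [e3, e4]
    change b1 v + (b2 v + (_ + (b4 v + b5 v))) ≤ _
    linarith
  have hBA : ∀ v : AbsoluteValue K ℝ, Real.log (BA D T d (fun t => max 1 (v (x t)))
      (fun i => min (max 1 (v (x (some i, 0) - 1)⁻¹)) (max 1 (v (x (some i, 1))))) s) ≤ B v := by
    intro v
    rw [log_BA D T d x s v]
    have e1 : 0 ≤ b1 v := mul_nonneg (Nat.cast_nonneg _) (lp_nonneg _ _)
    have e2 : 0 ≤ b5 v := Finset.sum_nonneg fun i _ => mul_nonneg (Nat.cast_nonneg _)
      (lp_nonneg _ _)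
    have e4 : B v = b1 v + (b2 v + (b3 v + (b4 v + (b5 v + b6 v)))) := rfl
    rw [e4]
    change b2 v + (b3 v + (b4 v + b6 v)) ≤ _
    linarith
  set κ : ℝ := (d + ∑ t, (s t : ℝ)) * Real.log C' + Real.log Λ with hκ
  have hmain := tot_cmp (g := g) (h := B) Fg FB (fun w' => κ + ee (ai w')) SS
    (fun v' => ee (av v'))
    (by
      intro w'
      obtain ⟨r, hr1, hr2⟩ := hv (ai w')
      have e1 := (hT r s).2 w'
      have e2 := Real.log_le_log hr1 e1
      rw [hr2] at e2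
      have hb := BT_pos D k d 2 x s (ai w')
      have e3 : Real.log (C' ^ (d + ∑ t, s t) * Λ * BT D d 2 (fun t => max 1 (w' (x t)))
          (fun i => max 1 (w' (x (some i, 0) * x (none, 0) ^ (4 ^ k i)))) s) = κ +
          Real.log (BT D d 2 (fun t => max 1 ((ai w') (x t)))
          (fun i => max 1 ((ai w') (x (some i, 0) * x (none, 0) ^ (4 ^ k i)))) s) := by
        change Real.log (C' ^ (d + ∑ t, s t) * Λ * BT D d 2 (fun t => max 1 ((ai w') (x t)))
          (fun i => max 1 ((ai w') (x (some i, 0) * x (none, 0) ^ (4 ^ k i)))) s) = _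
        rw [mul_assoc, Real.log_mul (pow_pos hC0 _).ne' (mul_pos hΛ0 hb).ne',
          Real.log_mul hΛ0.ne' hb.ne', Real.log_pow, hκ]
        push_cast
        ring
      rw [e3] at e2
      have e4 := hBT (ai w')
      change g (ai w') ≤ _ at e2
      linarith)
    (by
      intro v' hv'
      obtain ⟨r, hr1, hr2⟩ := hv (av v')
      have e1 := hA v' (hSS v' hv') r s
      have e2 := Real.log_le_log hr1 e1
      rw [hr2] at e2
      have e4 := hBA (av v')
      change g (av v') ≤ _ at e2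
      exact e2.trans e4)
    (by
      intro v' hv'
      obtain ⟨r, hr1, hr2⟩ := hv (av v')
      have e1 := (hT r s).1 v'
      have e2 := Real.log_le_log hr1 e1
      rw [hr2] at e2
      have e4 := hBT (av v')
      change g (av v') ≤ _ at e2
      exact e2.trans e4)
  have hsum : ∑ w' : InfinitePlace K, (w'.mult : ℝ) * (κ + ee (ai w')) + ∑ v ∈ SS, ee (av v) =
      (Module.finrank ℚ K : ℝ) * κ + ∑ i, (T i : ℝ) * TH SS (x (some i, 1)) := by
    have q1 : (Module.finrank ℚ K : ℝ) * κ = ∑ w : InfinitePlace K, (w.mult : ℝ) * κ := by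
      rw [← Finset.sum_mul, ← InfinitePlace.sum_mult_eq (K := K)]
      push_cast
      rfl
    have q2 : ∑ w' : InfinitePlace K, (w'.mult : ℝ) * ee (ai w') + ∑ v ∈ SS, ee (av v) =
        ∑ i, (T i : ℝ) * TH SS (x (some i, 1)) := by
      rw [hee]
      simp only [Finset.mul_sum]
      rw [Finset.sum_comm, Finset.sum_comm (s := SS), ← Finset.sum_add_distrib]
      refine Finset.sum_congr rfl fun i _ => ?_
      unfold TH
      rw [mul_add, Finset.mul_sum, Finset.mul_sum]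
      congr 1
      refine Finset.sum_congr rfl fun w' _ => ?_
      change (w'.mult : ℝ) * ((T i : ℝ) * Real.log (max 1 (w' (x (some i, 1))))) = _
      ring
    rw [← q2, q1]
    simp only [mul_add, Finset.sum_add_distrib]
    ring
  rw [hsum, tg, tB, t1, t2, t3, t4, t5, t6] at hmain
  have hS0 : 0 ≤ (d : ℝ) + ∑ t, (s t : ℝ) :=
    add_nonneg (Nat.cast_nonneg _) (Finset.sum_nonneg (fun t _ => Nat.cast_nonneg _))
  have hlΛ : 0 ≤ Real.log Λ := Real.log_nonneg hΛ
  have hconst : (Module.finrank ℚ K : ℝ) * κ ≤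
      ((Module.finrank ℚ K : ℝ) * (Real.log C' + 1) + 1) *
        (d + ∑ t, (s t : ℝ) + Real.log Λ) := by
    rw [hκ]
    have p1 : 0 ≤ (Module.finrank ℚ K : ℝ) * Real.log C' * Real.log Λ := by positivity
    have p2 : 0 ≤ (Module.finrank ℚ K : ℝ) * (d + ∑ t, (s t : ℝ)) := mul_nonneg hn0 hS0
    nlinarith
  have r1 : ∑ i, (T i : ℝ) * (logHeight₁ (x (some i, 0) - 1)⁻¹ + logHeight₁ (x (some i, 1)) -
          logHeight ![1, (x (some i, 0) - 1)⁻¹, x (some i, 1)] - TH SS (x (some i, 1))) =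
      ∑ i, (T i : ℝ) * (logHeight₁ (x (some i, 0) - 1)⁻¹ + logHeight₁ (x (some i, 1)) -
          logHeight ![1, (x (some i, 0) - 1)⁻¹, x (some i, 1)]) -
        ∑ i, (T i : ℝ) * TH SS (x (some i, 1)) := by
    rw [← Finset.sum_sub_distrib]
    exact Finset.sum_congr rfl fun i _ => by ring
  rw [r1]
  linarith

end Pool.Agent.J4H67.GE
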