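import Pool.Agent.J4H27.GE.Defs
import Pool.Agent.J4H67.GC.Row

/-!
# Change of the rows in a coefficient of lowest weight (project GE)
-/

set_option autoImplicit false

open Height Filter NumberField

namespace Pool.Agent.J4H67.GE

open Pool.Agent.J4H27.GC Pool.Agent.J4H27.GE Pool.Agent.J4H67.GC

theorem t_RWM : S_RWM := by
  classical
  intro K _ _ a b m D k F x h xx hh V w s hOn hx hh' hw hV hlow r
  have key : ∀ i, ∃ X : MvPowerSeries (Ix m) K, MvPowerSeries.constantCoeff X = V i ^ D i ∧
      ∀ n ≤ D i, rv a b D k (gR K m) xx hh false i 1 n = X * rv a b D k (gR K m) xx hh true i 1 n := by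
    intro i
    obtain ⟨v1, v2, v3⟩ := hV i
    have hid := row_id (gR K m (a 1)) (gR K m (b 1)) (xx (some i, 1)) (hh (some i, 1)) (xx (none, 1)) (hh (none, 1))
      ((phi (a 1) (b 1) (k i)).eval₂ (gR K m) (xx (none, 1))) ((psi (a 1) (b 1) (k i)).eval₂ (gR K m) (xx (none, 1)))
      ((om (a 1) (b 1) (k i)).eval₂ (gR K m) (xx (none, 1))) (hOn _) (hOn _) (om_ev _ _ _ _ _)
    have hev : ∀ f : Polynomial (𝓞 K), MvPowerSeries.constantCoeff (f.eval₂ (gR K m) (xx (none, 1))) =
        f.eval₂ (algebraMap (𝓞 K) K) (x (none, 1)) := by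
      intro f
      rw [Polynomial.hom_eval₂, hx]
      congr 1
    have hg : ∀ c : 𝓞 K, MvPowerSeries.constantCoeff (gR K m c) = (c : K) := fun c =>
      MvPowerSeries.constantCoeff_C (σ := Ix m) (c : K)
    obtain ⟨X, hX1, hX2⟩ := rows_prop _ _ _ _ hid (V i) (D i) (by
      simp only [map_add, map_sub, map_mul, map_pow, map_ofNat, hev, hx, hh', hg]
      exact v1) (by
      simp only [map_add, map_sub, map_mul, map_pow, map_ofNat, hev, hx, hh', hg]
      exact v2) (by
      simp only [map_add, map_sub, map_mul, map_pow, map_ofNat, hev, hx, hh', hg]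
      exact v3)
    refine ⟨X, hX1, fun n hn => ?_⟩
    have h4 := hX2 n hn
    unfold rv
    simp only [Bool.false_eq_true, if_false, if_true]
    exact h4
  choose X hX1 hX2 using key
  have h1 : Vm a b D k (gR K m) xx hh r F = (∏ i, if r i then 1 else X i) *
      Vm a b D k (gR K m) xx hh (fun _ => true) F := by
    unfold Vm
    rw [Finset.mul_sum]
    refine Finset.sum_congr rfl fun n _ => ?_
    rw [mul_left_comm, ← Finset.prod_mul_distrib]
    congr 1
    refine Finset.prod_congr rfl fun i _ => ?_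
    by_cases hr : r i = true
    · rw [hr, if_pos rfl, one_mul]
    · rw [Bool.not_eq_true] at hr
      rw [hr, if_neg (by simp), hX2 i (n i 1) (Nat.lt_succ_iff.1 (n i 1).2)]
      ring
  rw [h1, coeff_low w hw s _ _ hlow]
  congr 1
  rw [map_prod]
  refine Finset.prod_congr rfl fun i _ => ?_
  by_cases hr : r i = true
  · rw [if_pos hr, if_pos hr, map_one]
  · rw [if_neg hr, if_neg hr, hX1]

end Pool.Agent.J4H67.GE
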