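import Pool.Agent.J4H67.GE.Pfm

/-!
# Project GE: part PFB (the inequality from the product formula, approximation)
-/

set_option autoImplicit false
set_option linter.unusedSectionVars false

open MvPolynomial Height Filter NumberField

namespace Pool.Agent.J4H67.GE

open Pool.Agent.J4H27.GC Pool.Agent.J4H27.GE Pool.Agent.J4H75.GC Pool.Agent.TH954.V

theorem t_PFB (h1 : S_LCT) (h2 : S_LCB) (h3 : S_RWM) : S_PFB := by
  classical
  intro K _ _ a b m N C₁ CQ hC₁ hCQ
  obtain ⟨C', hC', hloc⟩ := h1 K a b m C₁ hC₁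
  obtain ⟨CB, hCB, hlocB⟩ := h2 K a b m N C₁ CQ hC₁ hCQ
  have hlogC : 0 ≤ Real.log C' := Real.log_nonneg hC'
  have hCB1 : (1 : ℝ) ≤ CB := by exact_mod_cast hCB
  have hlogB : 0 ≤ Real.log CB := Real.log_nonneg hCB1
  have hn0 : (0 : ℝ) ≤ (Module.finrank ℚ K : ℝ) := Nat.cast_nonneg _
  set lc : ℝ := Real.log C' + Real.log CB with hlc
  have hlc0 : 0 ≤ lc := by positivity
  set Cf : ℕ := ⌈((Module.finrank ℚ K : ℝ) + 1) * (lc + 1 + CB)⌉₊ + CB + 2 with hCf
  have hCf1 : ((Module.finrank ℚ K : ℝ) + 1) * (lc + 1 + CB) ≤ Cf := by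
    have h4 := Nat.le_ceil (((Module.finrank ℚ K : ℝ) + 1) * (lc + 1 + CB))
    rw [hCf]
    push_cast
    linarith
  have hCf2 : (CB : ℝ) + 2 ≤ Cf := by
    rw [hCf]
    push_cast
    have : (0 : ℝ) ≤ (⌈((Module.finrank ℚ K : ℝ) + 1) * (lc + 1 + CB)⌉₊ : ℝ) := Nat.cast_nonneg _
    linarith
  refine ⟨Cf, by omega, ?_⟩
  intro D k d τ hd hD hDk F Λ hΛ hdeg hlen Q L R hQ hCn x h E V w s v₀ ρ hDat hρ hρ1 happ hw hV hc0 hlow
  have hT := hloc D k d hd hD hDk F Λ hdeg hlen x h E hDat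
  have hBd := hlocB D k d τ hd hD hDk F Λ hΛ hdeg hlen Q L R hQ hCn x h E hDat v₀ ρ hρ hρ1 happ
  have hv := hval h3 a b C₁ D k F x h E V w s hDat hw hV hc0 hlow
  set c : K := MvPowerSeries.coeff s (Vm a b D k (gR K m) (xF x h) (hR h E) (fun _ => true) F)
    with hc
  have hC0 : (0 : ℝ) < C' := by linarith
  have hCB0 : (0 : ℝ) < CB := by linarith
  have hΛ0 : (0 : ℝ) < Λ := by linarith
  have hL : ∀ i, 1 ≤ L i := fun i => (hQ i).2.2.1
  have hlL : ∀ i, 0 ≤ Real.log (L i) := fun i => Real.log_nonneg (hL i)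
  -- the two functions on the places
  set b1 : AbsoluteValue K ℝ → ℝ := fun v => (d : ℝ) * Pool.Agent.J4H75.GC.lp (x (none, 0)) v
    with hb1
  set b2 : AbsoluteValue K ℝ → ℝ := fun v =>
    ((d : ℝ) + 2 * m * d + 2 * m) * Pool.Agent.J4H75.GC.lp (x (none, 1)) v with hb2
  set b3 : AbsoluteValue K ℝ → ℝ := fun v => ∑ i : Fin m,
    (2 * (D i : ℝ) + Cf) * Pool.Agent.J4H75.GC.lp (x (some i, 1)) v with hb3
  set b4 : AbsoluteValue K ℝ → ℝ := fun v => ∑ t : Option (Fin m),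
    ((Cf : ℝ) * (s (t, 1) : ℝ)) * Pool.Agent.J4H75.GC.lp (x (t, 1)) v with hb4
  set b5 : AbsoluteValue K ℝ → ℝ := fun v => ∑ i : Fin m,
    (D i : ℝ) * Pool.Agent.J4H75.GC.lp (x (some i, 0) * x (none, 0) ^ (4 ^ k i)) v with hb5
  have F1 : FS b1 := FS_mul (FS_lp _) _
  have F2 : FS b2 := FS_mul (FS_lp _) _
  have F3 : FS b3 := FS_sum _ (fun i _ => FS_mul (FS_lp _) _)
  have F4 : FS b4 := FS_sum _ (fun i _ => FS_mul (FS_lp _) _)
  have F5 : FS b5 := FS_sum _ (fun i _ => FS_mul (FS_lp _) _)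
  set B : AbsoluteValue K ℝ → ℝ := fun v => b1 v + (b2 v + (b3 v + (b4 v + b5 v))) with hB
  have FB : FS B := FS_add F1 (FS_add F2 (FS_add F3 (FS_add F4 F5)))
  have tB : tot B = tot b1 + (tot b2 + (tot b3 + (tot b4 + tot b5))) := by
    rw [hB, tot_add F1 (FS_add F2 (FS_add F3 (FS_add F4 F5))),
      tot_add F2 (FS_add F3 (FS_add F4 F5)), tot_add F3 (FS_add F4 F5),
      tot_add F4 F5]
  have t1 : tot b1 = (d : ℝ) * logHeight₁ (x (none, 0)) := by
    rw [hb1, tot_mul (FS_lp _), tot_lp]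
  have t2 : tot b2 = ((d : ℝ) + 2 * m * d + 2 * m) * logHeight₁ (x (none, 1)) := by
    rw [hb2, tot_mul (FS_lp _), tot_lp]
  have t3 : tot b3 = ∑ i : Fin m, (2 * (D i : ℝ) + Cf) * logHeight₁ (x (some i, 1)) := by
    rw [hb3, tot_sum _ (fun i _ => FS_mul (FS_lp _) _)]
    exact Finset.sum_congr rfl fun i _ => by rw [tot_mul (FS_lp _), tot_lp]
  have t4 : tot b4 = Cf * ∑ t : Option (Fin m), (s (t, 1) : ℝ) * logHeight₁ (x (t, 1)) := by
    rw [hb4, tot_sum _ (fun i _ => FS_mul (FS_lp _) _), Finset.mul_sum]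
    exact Finset.sum_congr rfl fun i _ => by rw [tot_mul (FS_lp _), tot_lp]; ring
  have t5 : tot b5 = ∑ i : Fin m, (D i : ℝ) *
      logHeight₁ (x (some i, 0) * x (none, 0) ^ (4 ^ k i)) := by
    rw [hb5, tot_sum _ (fun i _ => FS_mul (FS_lp _) _)]
    exact Finset.sum_congr rfl fun i _ => by rw [tot_mul (FS_lp _), tot_lp]
  set g : AbsoluteValue K ℝ → ℝ := fun v =>
      Real.log (v c) + ∑ i, (D i : ℝ) * Pool.Agent.J4H75.GC.lp (V i) v with hg
  have G2 : FS (fun v : AbsoluteValue K ℝ => ∑ i : Fin m,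
      (D i : ℝ) * Pool.Agent.J4H75.GC.lp (V i) v) := FS_sum _ (fun i _ => FS_mul (FS_lp _) _)
  have Fg : FS g := FS_add (FS_log hc0) G2
  have tg : tot g = ∑ i, (D i : ℝ) * logHeight₁ (V i) := by
    rw [hg, tot_add (FS_log hc0) G2, tot_log hc0, zero_add,
      tot_sum _ (fun i _ => FS_mul (FS_lp _) _)]
    refine Finset.sum_congr rfl (fun i _ => ?_)
    rw [tot_mul (FS_lp _), tot_lp]
  -- the logarithm of the bounds
  have hBT : ∀ (c' : ℕ), (c' : ℝ) ≤ Cf → ∀ v : AbsoluteValue K ℝ,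
      Real.log (BT D d c' (fun t => max 1 (v (x t)))
      (fun i => max 1 (v (x (some i, 0) * x (none, 0) ^ (4 ^ k i)))) s) ≤ B v := by
    intro c' hc' v
    rw [log_BT D k d c' x s v]
    have e1 : ∑ i : Fin m, (2 * (D i : ℝ) + c') * Pool.Agent.J4H75.GC.lp (x (some i, 1)) v ≤
        b3 v := by
      rw [hb3]
      refine Finset.sum_le_sum fun i _ => ?_
      exact mul_le_mul_of_nonneg_right (by linarith) (lp_nonneg _ _)
    have e3 : ∑ t : Option (Fin m), ((c' : ℝ) * (s (t, 1) : ℝ)) *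
        Pool.Agent.J4H75.GC.lp (x (t, 1)) v ≤ b4 v := by
      rw [hb4]
      refine Finset.sum_le_sum fun t _ => ?_
      exact mul_le_mul_of_nonneg_right (mul_le_mul_of_nonneg_right hc' (Nat.cast_nonneg _))
        (lp_nonneg _ _)
    have e4 : B v = b1 v + (b2 v + (b3 v + (b4 v + b5 v))) := rfl
    rw [e4]
    change b1 v + (b2 v + (_ + (_ + b5 v))) ≤ _
    linarith
  have hc2 : ((2 : ℕ) : ℝ) ≤ Cf := by
    push_cast
    linarith
  have hcB : ((CB : ℕ) : ℝ) ≤ Cf := by linarith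
  set S1 : ℝ := (d : ℝ) + ∑ t, (s t : ℝ) with hS1
  have hS0 : 0 ≤ S1 :=
    add_nonneg (Nat.cast_nonneg _) (Finset.sum_nonneg (fun t _ => Nat.cast_nonneg _))
  set LL : ℝ := ∑ i, (D i : ℝ) * Real.log (L i) with hLL
  have hLL0 : 0 ≤ LL := Finset.sum_nonneg fun i _ => mul_nonneg (Nat.cast_nonneg _) (hlL i)
  have hlΛ : 0 ≤ Real.log Λ := Real.log_nonneg hΛ
  set κ : ℝ := S1 * lc + Real.log Λ + CB * LL with hκ
  have hκ0 : 0 ≤ κ := by positivity
  set δ : ℝ := ((τ - ∑ i, 4 ^ k i * s (some i, 1) : ℕ) : ℝ) * Real.log ρ⁻¹ with hδ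
  have hδ0 : 0 ≤ δ := mul_nonneg (Nat.cast_nonneg _) (Real.log_nonneg ((one_le_inv₀ hρ).2 hρ1))
  have hgen : ∀ w' : InfinitePlace K, g (ai w') ≤ κ + B (ai w') := by
    intro w'
    obtain ⟨r, hr1, hr2⟩ := hv (ai w')
    have e1 := (hT r s).2 w'
    have e2 := Real.log_le_log hr1 e1
    rw [hr2] at e2
    have hb := BT_pos D k d 2 x s (ai w')
    have e3 : Real.log (C' ^ (d + ∑ t, s t) * Λ * BT D d 2 (fun t => max 1 (w' (x t)))
        (fun i => max 1 (w' (x (some i, 0) * x (none, 0) ^ (4 ^ k i)))) s) =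
        (S1 * Real.log C' + Real.log Λ) +
        Real.log (BT D d 2 (fun t => max 1 ((ai w') (x t)))
        (fun i => max 1 ((ai w') (x (some i, 0) * x (none, 0) ^ (4 ^ k i)))) s) := by
      change Real.log (C' ^ (d + ∑ t, s t) * Λ * BT D d 2 (fun t => max 1 ((ai w') (x t)))
        (fun i => max 1 ((ai w') (x (some i, 0) * x (none, 0) ^ (4 ^ k i)))) s) = _
      rw [mul_assoc, Real.log_mul (pow_pos hC0 _).ne' (mul_pos hΛ0 hb).ne',
        Real.log_mul hΛ0.ne' hb.ne', Real.log_pow, hS1]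
      push_cast
      ring
    rw [e3] at e2
    have e4 := hBT 2 hc2 (ai w')
    change g (ai w') ≤ _ at e2
    have e5 : S1 * Real.log C' + Real.log Λ ≤ κ := by
      rw [hκ, hlc]
      have : 0 ≤ S1 * Real.log CB := by positivity
      have : 0 ≤ (CB : ℝ) * LL := by positivity
      nlinarith
    linarith
  have hgenf : ∀ v' : FinitePlace K, g (av v') ≤ B (av v') := by
    intro v'
    obtain ⟨r, hr1, hr2⟩ := hv (av v')
    have e1 := (hT r s).1 v'
    have e2 := Real.log_le_log hr1 e1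
    rw [hr2] at e2
    have e4 := hBT 2 hc2 (av v')
    change g (av v') ≤ _ at e2
    exact e2.trans e4
  have hspec : ∀ v : AbsoluteValue K ℝ, (∀ z : K, pv v₀ z = v z) → g v ≤ κ - δ + B v := by
    intro v hvv
    obtain ⟨r, hr1, hr2⟩ := hv v
    have e1 := hBd r s
    simp only [hvv] at e1
    have e2 := Real.log_le_log hr1 e1
    rw [hr2] at e2
    have hb := BT_pos D k d CB x s v
    have hLp : 0 < (∏ i, L i ^ D i) := Finset.prod_pos fun i _ => pow_pos (by linarith [hL i]) _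
    have e3 : Real.log ((CB : ℝ) ^ (d + ∑ t, s t) * Λ * (∏ i, L i ^ D i) ^ CB *
        BT D d CB (fun t => max 1 (v (x t)))
        (fun i => max 1 (v (x (some i, 0) * x (none, 0) ^ (4 ^ k i)))) s *
        ρ ^ (τ - ∑ i, 4 ^ k i * s (some i, 1))) =
        (S1 * Real.log CB + Real.log Λ + CB * LL) - δ +
        Real.log (BT D d CB (fun t => max 1 (v (x t)))
        (fun i => max 1 (v (x (some i, 0) * x (none, 0) ^ (4 ^ k i)))) s) := by
      have z1 : ((CB : ℝ) ^ (d + ∑ t, s t)) ≠ 0 := (pow_pos hCB0 _).ne'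
      have z2 : (∏ i, L i ^ D i) ^ CB ≠ 0 := (pow_pos hLp _).ne'
      have z3 : ρ ^ (τ - ∑ i, 4 ^ k i * s (some i, 1)) ≠ 0 := (pow_pos hρ _).ne'
      rw [Real.log_mul (mul_ne_zero (mul_ne_zero (mul_ne_zero z1 hΛ0.ne') z2) hb.ne') z3,
        Real.log_mul (mul_ne_zero (mul_ne_zero z1 hΛ0.ne') z2) hb.ne',
        Real.log_mul (mul_ne_zero z1 hΛ0.ne') z2, Real.log_mul z1 hΛ0.ne', Real.log_pow,
        Real.log_pow, Real.log_pow, Real.log_prod (fun i _ => (pow_pos (by linarith [hL i]) _).ne'),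
        hδ, Real.log_inv, hS1, hLL]
      simp only [Real.log_pow]
      push_cast
      ring
    rw [e3] at e2
    have e4 := hBT CB hcB v
    change g v ≤ _ at e2
    have e5 : S1 * Real.log CB + Real.log Λ + CB * LL ≤ κ := by
      rw [hκ, hlc]
      have : 0 ≤ S1 * Real.log C' := by positivity
      nlinarith
    linarith
  -- the sum over all places
  have hmain : δ + tot g ≤ ((Module.finrank ℚ K : ℝ) + 1) * κ + tot B := by
    have q1 : (Module.finrank ℚ K : ℝ) * κ = ∑ w : InfinitePlace K, (w.mult : ℝ) * κ := by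
      rw [← Finset.sum_mul, ← InfinitePlace.sum_mult_eq (K := K)]
      push_cast
      rfl
    rcases v₀ with v₁ | w₁
    · have hm := tot_cmp (g := g) (h := B) Fg FB (fun _ => κ) {v₁} (fun _ => κ - δ) hgen
        (fun v' _ => hgenf v') (fun v' hv' => by
          rw [Finset.mem_singleton] at hv'
          rw [hv']
          exact hspec (av v₁) fun z => rfl)
      rw [← q1, Finset.sum_singleton] at hm
      linarith
    · have hm := tot_cmp (g := g) (h := B) Fg FB (fun w' => κ + if w' = w₁ then -δ else 0) ∅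
        (fun _ => 0) (fun w' => by
          by_cases hw' : w' = w₁
          · rw [if_pos hw', hw']
            have := hspec (ai w₁) fun z => rfl
            linarith
          · rw [if_neg hw', add_zero]
            exact hgen w') (fun v' _ => hgenf v') (fun v' hv' => absurd hv' (Finset.notMem_empty _))
      have q2 : ∑ w' : InfinitePlace K, (w'.mult : ℝ) * (κ + if w' = w₁ then -δ else 0) =
          (Module.finrank ℚ K : ℝ) * κ - (w₁.mult : ℝ) * δ := by
        rw [q1]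
        simp only [mul_add, Finset.sum_add_distrib]
        rw [sub_eq_add_neg]
        congr 1
        simp
      rw [q2, Finset.sum_empty, add_zero] at hm
      have q3 : (1 : ℝ) ≤ (w₁.mult : ℝ) := by
        exact_mod_cast InfinitePlace.mult_pos
      nlinarith
  rw [tg, tB, t1, t2, t3, t4, t5] at hmain
  have hconst : ((Module.finrank ℚ K : ℝ) + 1) * κ ≤ Cf * (S1 + Real.log Λ + LL) := by
    have p1 : κ ≤ (lc + 1 + CB) * (S1 + Real.log Λ + LL) := by
      rw [hκ]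
      have a1 : 0 ≤ (1 + (CB : ℝ)) * S1 := by positivity
      have a2 : 0 ≤ (lc + CB) * Real.log Λ := by positivity
      have a3 : 0 ≤ (lc + 1) * LL := by positivity
      nlinarith
    calc ((Module.finrank ℚ K : ℝ) + 1) * κ
        ≤ ((Module.finrank ℚ K : ℝ) + 1) * ((lc + 1 + CB) * (S1 + Real.log Λ + LL)) := by gcongr
      _ = (((Module.finrank ℚ K : ℝ) + 1) * (lc + 1 + CB)) * (S1 + Real.log Λ + LL) := by ring
      _ ≤ Cf * (S1 + Real.log Λ + LL) := by
          have : 0 ≤ S1 + Real.log Λ + LL := by positivity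
          gcongr
  have e9 : (Cf : ℝ) * (d + ∑ t, (s t : ℝ) + Real.log Λ + ∑ i, (D i : ℝ) * Real.log (L i)) =
      Cf * (S1 + Real.log Λ + LL) := by rw [hS1, hLL]
  rw [e9]
  linarith

end Pool.Agent.J4H67.GE
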