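import Pool.Agent.J4H27.GE.Defs
import Pool.Agent.J4H75.GC.Pf

/-!
# Project GE: tools for the parts PFA and PFB
-/

set_option autoImplicit false
set_option linter.unusedSectionVars false

open MvPolynomial Height Filter NumberField

namespace Pool.Agent.J4H67.GE

open Pool.Agent.J4H27.GC Pool.Agent.J4H27.GE Pool.Agent.J4H75.GC Pool.Agent.TH954.V

variable {K : Type} [Field K] [NumberField K] {m : ℕ}

/-- comparison of two functions on the places, with corrections -/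
lemma tot_cmp {g h : AbsoluteValue K ℝ → ℝ} (hg : FS g) (hh : FS h) (e : InfinitePlace K → ℝ)
    (SS : Finset (FinitePlace K)) (e' : FinitePlace K → ℝ)
    (hi : ∀ w : InfinitePlace K, g (ai w) ≤ e w + h (ai w))
    (hf : ∀ v ∉ SS, g (av v) ≤ h (av v))
    (hf' : ∀ v ∈ SS, g (av v) ≤ e' v + h (av v)) :
    tot g ≤ ∑ w : InfinitePlace K, (w.mult : ℝ) * e w + ∑ v ∈ SS, e' v + tot h := by
  classical
  set U : Finset (FinitePlace K) := (hg.toFinset ∪ hh.toFinset) ∪ SS with hU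
  have h1 : ∑ v ∈ U, g (av v) ≤ ∑ v ∈ SS, e' v + ∑ v ∈ U, h (av v) := by
    have h2 : ∑ v ∈ SS, e' v = ∑ v ∈ U, if v ∈ SS then e' v else 0 := by
      rw [Finset.sum_ite_mem, Finset.inter_eq_right.2 Finset.subset_union_right]
    rw [h2, ← Finset.sum_add_distrib]
    refine Finset.sum_le_sum fun v _ => ?_
    by_cases hv : v ∈ SS
    · rw [if_pos hv]
      exact hf' v hv
    · rw [if_neg hv, zero_add]
      exact hf v hv
  have h2 : ∑ w : InfinitePlace K, (w.mult : ℝ) * g (ai w) ≤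
      ∑ w : InfinitePlace K, (w.mult : ℝ) * e w +
        ∑ w : InfinitePlace K, (w.mult : ℝ) * h (ai w) := by
    rw [← Finset.sum_add_distrib]
    refine Finset.sum_le_sum (fun w _ => ?_)
    rw [← mul_add]
    exact mul_le_mul_of_nonneg_left (hi w) (Nat.cast_nonneg _)
  unfold tot
  rw [finsum_eq U (fun v hv => Finset.mem_union_left _ (Finset.mem_union_left _
      ((Set.Finite.mem_toFinset hg).mpr hv))),
    finsum_eq U (fun v hv => Finset.mem_union_left _ (Finset.mem_union_right _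
      ((Set.Finite.mem_toFinset hh).mpr hv)))]
  linarith

lemma cc_xF (x h : Ix m → K) (t : Ix m) : MvPowerSeries.constantCoeff (xF x h t) = x t := by
  unfold xF
  rw [map_add, map_mul, MvPowerSeries.constantCoeff_C, MvPowerSeries.constantCoeff_X]
  ring

lemma cc_hR1 (h : Ix m → K) (E : Ix m → PowerSeries K) (t : Ix m)
    (hE : PowerSeries.constantCoeff (E t) = 1) :
    MvPowerSeries.constantCoeff (hR h E t) = h t := by
  unfold hR
  rw [map_mul, MvPowerSeries.constantCoeff_C, PowerSeries.toMvPowerSeries_apply,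
    MvPowerSeries.constantCoeff_rename]
  change h t * PowerSeries.constantCoeff (E t) = h t
  rw [hE, mul_one]

lemma onM_ser (a b : Fin 2 → 𝓞 K) (C₁ : ℝ) (x h : Ix m → K) (E : Ix m → PowerSeries K)
    (hD : Dat (a 1) (b 1) C₁ x h E) : OnM a b (gR K m) (xF x h) (hR h E) := by
  intro t
  obtain ⟨-, -, h0, -, -⟩ := (hD.2 t)
  have h1 := ser_aux (t, 1) (E (t, 1)) (h (t, 1)) (x (t, 1)) (4 * h (t, 1) ^ 2) _ _ h0
  have h2 : csc x h (t, (1 : Fin 2)) = 4 * h (t, 1) ^ 2 := by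
    unfold csc
    rw [if_neg]
    simp
  unfold xF
  rw [h2]
  exact h1

/-- the values at a place, for a suitable choice of the rows -/
lemma hval (hR' : S_RWM) (a b : Fin 2 → 𝓞 K) (C₁ : ℝ) (D k : Fin m → ℕ)
    (F : NN D → MvPolynomial (Fin 2) (𝓞 K)) (x h : Ix m → K) (E : Ix m → PowerSeries K)
    (V : Fin m → K) (w : Ix m → ℕ) (s : Ix m →₀ ℕ) (hD : Dat (a 1) (b 1) C₁ x h E)
    (hw : ∀ t, 0 < w t)
    (hV : ∀ i, Rel (a 1) (b 1) (k i) (x (none, 1)) (h (none, 1)) (x (some i, 1)) (h (some i, 1))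
      (V i))
    (hc0 : MvPowerSeries.coeff s (Vm a b D k (gR K m) (xF x h) (hR h E) (fun _ => true) F) ≠ 0)
    (hlow : ∀ s' : Ix m →₀ ℕ, ∑ t, w t * s' t < ∑ t, w t * s t →
      MvPowerSeries.coeff s' (Vm a b D k (gR K m) (xF x h) (hR h E) (fun _ => true) F) = 0)
    (v : AbsoluteValue K ℝ) : ∃ r : Fin m → Bool,
      0 < v (MvPowerSeries.coeff s (Vm a b D k (gR K m) (xF x h) (hR h E) r F)) ∧
      Real.log (v (MvPowerSeries.coeff s (Vm a b D k (gR K m) (xF x h) (hR h E) r F))) =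
        Real.log (v (MvPowerSeries.coeff s
          (Vm a b D k (gR K m) (xF x h) (hR h E) (fun _ => true) F))) +
          ∑ i, (D i : ℝ) * lp (V i) v := by
  classical
  have hrow := hR' K a b m D k F x h (xF x h) (hR h E) V w s (onM_ser a b C₁ x h E hD)
    (fun t => cc_xF x h (t, 1)) (fun t => cc_hR1 h E (t, 1) (hD.2 t).2.1) hw hV hlow
  set c : K := MvPowerSeries.coeff s (Vm a b D k (gR K m) (xF x h) (hR h E) (fun _ => true) F)
    with hc
  set r : Fin m → Bool := fun i => decide (v (V i) ≤ 1) with hr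
  have hfac : ∀ (i : Fin m),
      v (if r i then (1 : K) else V i ^ D i) ≠ 0 ∧
      Real.log (v (if r i then (1 : K) else V i ^ D i)) = (D i : ℝ) * lp (V i) v := by
    intro i
    unfold Pool.Agent.J4H75.GC.lp
    by_cases hle : v (V i) ≤ 1
    · have hr1 : r i = true := by
        rw [hr]
        simpa using hle
      rw [hr1, if_pos rfl, map_one, max_eq_left hle, Real.log_one, mul_zero]
      exact ⟨one_ne_zero, rfl⟩
    · have hr1 : r i = false := by
        rw [hr]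
        simpa using hle
      push Not at hle
      rw [hr1, if_neg Bool.false_ne_true, map_pow, max_eq_right hle.le, Real.log_pow]
      exact ⟨pow_ne_zero _ (by linarith), rfl⟩
  have hvc : v c ≠ 0 := (v.pos hc0).ne'
  have hpp : (∏ i, v (if r i then (1 : K) else V i ^ D i)) ≠ 0 :=
    Finset.prod_ne_zero_iff.2 (fun i _ => (hfac i).1)
  have h1 : v (MvPowerSeries.coeff s (Vm a b D k (gR K m) (xF x h) (hR h E) r F)) =
      (∏ i, v (if r i then (1 : K) else V i ^ D i)) * v c := by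
    rw [hrow r, map_mul, map_prod]
  refine ⟨r, ?_, ?_⟩
  · rw [h1]
    exact lt_of_le_of_ne (mul_nonneg (Finset.prod_nonneg fun i _ => v.nonneg _) (v.nonneg _))
      (mul_ne_zero hpp hvc).symm
  · rw [h1, Real.log_mul hpp hvc, Real.log_prod (fun i _ => (hfac i).1), add_comm]
    congr 1
    exact Finset.sum_congr rfl (fun i _ => (hfac i).2)

lemma mx_pos (v : AbsoluteValue K ℝ) (z : K) : (0 : ℝ) < max 1 (v z) := lt_max_of_lt_left one_pos

lemma lp_nonneg (z : K) (v : AbsoluteValue K ℝ) : 0 ≤ lp z v :=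
  Real.log_nonneg (le_max_left _ _)

lemma lm_le (z z' : K) (v : AbsoluteValue K ℝ) : lm z z' v ≤ lp z' v :=
  Real.log_le_log (lt_min (mx_pos v z) (mx_pos v z')) (min_le_right _ _)

lemma BT_pos (D k : Fin m → ℕ) (d c : ℕ) (x : Ix m → K) (s : Ix m →₀ ℕ)
    (v : AbsoluteValue K ℝ) : 0 < BT D d c (fun t => max 1 (v (x t)))
      (fun i => max 1 (v (x (some i, 0) * x (none, 0) ^ (4 ^ k i)))) s := by
  unfold BT
  have hM : ∀ z : K, (0 : ℝ) < max 1 (v z) := mx_pos v
  refine mul_pos (mul_pos (mul_pos (mul_pos (pow_pos (hM _) _) (pow_pos (hM _) _)) ?_) ?_) ?_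
  · exact Finset.prod_pos (fun i _ => pow_pos (hM _) _)
  · exact Finset.prod_pos (fun i _ => pow_pos (hM _) _)
  · exact Finset.prod_pos (fun i _ => pow_pos (hM _) _)

lemma log_BT (D k : Fin m → ℕ) (d c : ℕ) (x : Ix m → K) (s : Ix m →₀ ℕ)
    (v : AbsoluteValue K ℝ) : Real.log (BT D d c (fun t => max 1 (v (x t)))
      (fun i => max 1 (v (x (some i, 0) * x (none, 0) ^ (4 ^ k i)))) s) =
      (d : ℝ) * lp (x (none, 0)) v + (((d : ℝ) + 2 * m * d + 2 * m) * lp (x (none, 1)) v +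
      (∑ i : Fin m, (2 * (D i : ℝ) + c) * lp (x (some i, 1)) v +
      (∑ t : Option (Fin m), ((c : ℝ) * (s (t, 1) : ℝ)) * lp (x (t, 1)) v +
      ∑ i : Fin m, (D i : ℝ) * lp (x (some i, 0) * x (none, 0) ^ (4 ^ k i)) v))) := by
  have hM : ∀ z : K, (0 : ℝ) < max 1 (v z) := mx_pos v
  have h1 : (max 1 (v (x (none, 0)))) ^ d ≠ 0 := (pow_pos (hM _) _).ne'
  have h2 : (max 1 (v (x (none, 1)))) ^ (d + 2 * m * d + 2 * m) ≠ 0 := (pow_pos (hM _) _).ne'
  have h3 : (∏ i : Fin m, (max 1 (v (x (some i, 1)))) ^ (2 * D i + c)) ≠ 0 :=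
    (Finset.prod_pos (fun j _ => pow_pos (hM _) _)).ne'
  have h4 : (∏ t : Option (Fin m), (max 1 (v (x (t, 1)))) ^ (c * s (t, 1))) ≠ 0 :=
    (Finset.prod_pos (fun j _ => pow_pos (hM _) _)).ne'
  have h5 : (∏ i : Fin m, (max 1 (v (x (some i, 0) * x (none, 0) ^ (4 ^ k i)))) ^ D i) ≠ 0 :=
    (Finset.prod_pos (fun j _ => pow_pos (hM _) _)).ne'
  unfold BT
  rw [Real.log_mul (mul_ne_zero (mul_ne_zero (mul_ne_zero h1 h2) h3) h4) h5,
    Real.log_mul (mul_ne_zero (mul_ne_zero h1 h2) h3) h4, Real.log_mul (mul_ne_zero h1 h2) h3,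
    Real.log_mul h1 h2, Real.log_prod (fun i _ => (pow_pos (hM _) _).ne'),
    Real.log_prod (fun j _ => (pow_pos (hM _) _).ne'),
    Real.log_prod (fun j _ => (pow_pos (hM _) _).ne'), Real.log_pow, Real.log_pow, add_assoc,
    add_assoc, add_assoc]
  unfold Pool.Agent.J4H75.GC.lp
  push_cast
  simp only [Real.log_pow]
  push_cast
  rfl

lemma log_BA (D T : Fin m → ℕ) (d : ℕ) (x : Ix m → K) (s : Ix m →₀ ℕ)
    (v : AbsoluteValue K ℝ) : Real.log (BA D T d (fun t => max 1 (v (x t)))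
      (fun i => min (max 1 (v (x (some i, 0) - 1)⁻¹)) (max 1 (v (x (some i, 1))))) s) =
      ((d : ℝ) + 2 * m * d + 2 * m) * lp (x (none, 1)) v +
      (∑ i : Fin m, (2 * (D i : ℝ) + 2 + (s (some i, 0) : ℝ)) * lp (x (some i, 1)) v +
      (∑ t : Option (Fin m), (2 * (s (t, 1) : ℝ)) * lp (x (t, 1)) v +
      ∑ i : Fin m, (-(T i : ℝ)) * lm (x (some i, 0) - 1)⁻¹ (x (some i, 1)) v)) := by
  have hM : ∀ z : K, (0 : ℝ) < max 1 (v z) := mx_pos v
  have h2 : (max 1 (v (x (none, 1)))) ^ (d + 2 * m * d + 2 * m) ≠ 0 := (pow_pos (hM _) _).ne'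
  have h3 : (∏ i : Fin m, (max 1 (v (x (some i, 1)))) ^ (2 * D i + 2 + s (some i, 0))) ≠ 0 :=
    (Finset.prod_pos (fun j _ => pow_pos (hM _) _)).ne'
  have h4 : (∏ t : Option (Fin m), (max 1 (v (x (t, 1)))) ^ (2 * s (t, 1))) ≠ 0 :=
    (Finset.prod_pos (fun j _ => pow_pos (hM _) _)).ne'
  have h5 : ∀ i : Fin m, (min (max 1 (v (x (some i, 0) - 1)⁻¹)) (max 1 (v (x (some i, 1)))) ^
      T i)⁻¹ ≠ 0 := fun i => (inv_pos.2 (pow_pos (lt_min (hM _) (hM _)) _)).ne'
  have h6 : (∏ i : Fin m, (min (max 1 (v (x (some i, 0) - 1)⁻¹)) (max 1 (v (x (some i, 1)))) ^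
      T i)⁻¹) ≠ 0 := Finset.prod_ne_zero_iff.2 (fun i _ => h5 i)
  unfold BA
  rw [Real.log_mul (mul_ne_zero (mul_ne_zero h2 h3) h4) h6,
    Real.log_mul (mul_ne_zero h2 h3) h4, Real.log_mul h2 h3,
    Real.log_prod (fun j _ => (pow_pos (hM _) _).ne'),
    Real.log_prod (fun j _ => (pow_pos (hM _) _).ne'), Real.log_prod (fun i _ => h5 i),
    Real.log_pow, add_assoc, add_assoc]
  congr 1
  · unfold Pool.Agent.J4H75.GC.lp
    push_cast
    rfl
  congr 1
  · refine Finset.sum_congr rfl (fun i _ => ?_)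
    rw [Real.log_pow]
    unfold Pool.Agent.J4H75.GC.lp
    push_cast
    rfl
  congr 1
  · refine Finset.sum_congr rfl (fun i _ => ?_)
    rw [Real.log_pow]
    unfold Pool.Agent.J4H75.GC.lp
    push_cast
    rfl
  · refine Finset.sum_congr rfl (fun i _ => ?_)
    rw [Real.log_inv, Real.log_pow]
    unfold lm
    ring

end Pool.Agent.J4H67.GE
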